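import Mathlib

set_option autoImplicit false

/-! Bimodule injective dimension of gendo-symmetric algebras over imperfect fields. -/

open scoped TensorProduct
open CategoryTheory MulOpposite

namespace Pool.Agent.Results.MP_38adfa_al.ImperfectFields

/-- the algebra `A` as a module over the enveloping algebra `A^e`, `(a ⊗ b) x = a x b` -/
noncomputable def regular (K A : Type) [Field K] [Ring A] [Algebra K A] :
    ModuleCat.{0} (A ⊗[K] Aᵐᵒᵖ) :=
  letI : Module (A ⊗[K] Aᵐᵒᵖ) A := TensorProduct.Algebra.module
  ModuleCat.of (A ⊗[K] Aᵐᵒᵖ) A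

/-- the (left) global dimension -/
noncomputable def gldim (A : Type) [Ring A] : WithBot ℕ∞ :=
  ⨆ M : ModuleCat.{0} A, projectiveDimension M

/-- symmetric algebras: `B ≅ D(B)` as bimodules -/
def Symm (K B : Type) [Field K] [Ring B] [Algebra K B] : Prop :=
  ∃ φ : B ≃ₗ[K] Module.Dual K B, ∀ a b c x : B, φ (a * b * c) x = φ b (c * x * a)

/-- gendo-symmetric algebras: `A ≅ End_B(M)` with `B` a finite-dimensional symmetric algebra and
`M` a finitely generated generator -/
def GendoSymmetric (K A : Type) [Field K] [Ring A] [Algebra K A] : Prop :=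
  ∃ (B : Type) (_ : Ring B) (_ : Algebra K B) (M : Type) (_ : AddCommGroup M) (_ : Module K M)
    (_ : Module B M) (_ : IsScalarTower K B M) (_ : SMulCommClass B K M),
    FiniteDimensional K B ∧ Symm K B ∧ Module.Finite B M ∧
    (∃ (i : B →ₗ[B] M) (p : M →ₗ[B] B), p ∘ₗ i = LinearMap.id) ∧
    Nonempty (A ≃ₐ[K] Module.End B M)

/-- a `K`-derivation of `A` into itself -/
structure Der (K A : Type) [Field K] [Ring A] [Algebra K A] where
  D : A →ₗ[K] A
  leib : ∀ a b, D (a * b) = a * D b + D a * b

/-- the extension of `A` by `A` defined by a derivation -/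
def E {K A : Type} [Field K] [Ring A] [Algebra K A] (_ : Der K A) : Type := A × A

section ext

variable {K A : Type} [Field K] [Ring A] [Algebra K A] (d : Der K A)

theorem Der.one : d.D 1 = 0 := by
  have := d.leib 1 1
  rw [mul_one, one_mul, mul_one] at this
  simpa using this

instance : AddCommGroup (E d) := inferInstanceAs (AddCommGroup (A × A))
instance : Module K (E d) := inferInstanceAs (Module K (A × A))
instance : Module Aᵐᵒᵖ (E d) := inferInstanceAs (Module Aᵐᵒᵖ (A × A))

instance : Module A (E d) where
  smul a x := ((a * x.1, a * x.2 + d.D a * x.1) : A × A)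
  one_smul x := by
    refine Prod.ext ?_ ?_
    · exact one_mul _
    · show 1 * x.2 + d.D 1 * x.1 = x.2
      rw [d.one, one_mul, zero_mul, add_zero]
  mul_smul a b x := by
    refine Prod.ext ?_ ?_
    · exact mul_assoc _ _ _
    · show a * b * x.2 + d.D (a * b) * x.1 = a * (b * x.2 + d.D b * x.1) + d.D a * (b * x.1)
      rw [d.leib]
      noncomm_ring
  smul_zero a := by
    refine Prod.ext ?_ ?_
    · exact mul_zero _
    · show a * 0 + d.D a * 0 = 0
      simp
  smul_add a x y := by
    refine Prod.ext ?_ ?_
    · exact mul_add _ _ _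
    · show a * (x.2 + y.2) + d.D a * (x.1 + y.1) = a * x.2 + d.D a * x.1 + (a * y.2 + d.D a * y.1)
      noncomm_ring
  add_smul a b x := by
    refine Prod.ext ?_ ?_
    · exact add_mul _ _ _
    · show (a + b) * x.2 + d.D (a + b) * x.1 = a * x.2 + d.D a * x.1 + (b * x.2 + d.D b * x.1)
      rw [map_add]
      noncomm_ring
  zero_smul x := by
    refine Prod.ext ?_ ?_
    · exact zero_mul _
    · show 0 * x.2 + d.D 0 * x.1 = 0
      simp

theorem smul_E (a : A) (x : E d) : a • x = ((a * x.1, a * x.2 + d.D a * x.1) : A × A) := rfl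

theorem op_smul_E (b : A) (x : E d) : op b • x = ((x.1 * b, x.2 * b) : A × A) := rfl

instance : IsScalarTower K A (E d) where
  smul_assoc c a x := by
    refine Prod.ext ?_ ?_
    · exact smul_mul_assoc _ _ _
    · show (c • a) * x.2 + d.D (c • a) * x.1 = c • (a * x.2 + d.D a * x.1)
      rw [map_smul, smul_mul_assoc, smul_mul_assoc, smul_add]

instance : IsScalarTower K Aᵐᵒᵖ (E d) := inferInstanceAs (IsScalarTower K Aᵐᵒᵖ (A × A))

instance : SMulCommClass A Aᵐᵒᵖ (E d) where
  smul_comm a b x := by
    induction b using MulOpposite.rec' with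
    | _ b =>
    refine Prod.ext ?_ ?_
    · exact (mul_assoc _ _ _).symm
    · show a * (x.2 * b) + d.D a * (x.1 * b) = (a * x.2 + d.D a * x.1) * b
      noncomm_ring

/-- the inclusion of `A` -/
def incl (y : A) : E d := ((0, y) : A × A)

theorem incl_add (x y : A) : incl d (x + y) = incl d x + incl d y :=
  Prod.ext (add_zero (0 : A)).symm rfl

/-- if `A` is injective as a bimodule, all derivations are inner -/
theorem inner_of_injective (h : Injective (regular K A)) : ∃ c, ∀ a, d.D a = a * c - c * a := by
  let m1 : Module (A ⊗[K] Aᵐᵒᵖ) A := TensorProduct.Algebra.module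
  let m2 : Module (A ⊗[K] Aᵐᵒᵖ) (E d) := TensorProduct.Algebra.module
  have hinj : Module.Injective (A ⊗[K] Aᵐᵒᵖ) A :=
    (Module.injective_iff_injective_object _ _).2 h
  let f : A →ₗ[A ⊗[K] Aᵐᵒᵖ] E d :=
    { toFun := incl d
      map_add' := incl_add d
      map_smul' := fun r y => by
        show incl d (r • y) = r • incl d y
        induction r using TensorProduct.induction_on with
        | zero =>
          have e1 : (0 : A ⊗[K] Aᵐᵒᵖ) • y = 0 := m1.zero_smul y
          have e2 : (0 : A ⊗[K] Aᵐᵒᵖ) • incl d y = 0 := m2.zero_smul _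
          exact (congrArg (incl d) e1).trans e2.symm
        | tmul a b =>
          rw [TensorProduct.Algebra.smul_def, TensorProduct.Algebra.smul_def]
          induction b using MulOpposite.rec' with
          | _ b =>
          refine Prod.ext ?_ ?_
          · show (0 : A) = a * ((0 : A) * b)
            simp
          · show a * (y * b) = a * (y * b) + d.D a * ((0 : A) * b)
            simp
        | add r s hr hs =>
          rw [add_smul, add_smul, ← hr, ← hs, incl_add] }
  have hf : Function.Injective f := fun x y hxy => congrArg Prod.snd hxy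
  obtain ⟨r, hr⟩ := hinj.out f hf (LinearMap.id)
  let one' : E d := ((1, 0) : A × A)
  refine ⟨r one', fun a => ?_⟩
  have h1 : r (a • one') = a * r one' := by
    have : a • one' = (a ⊗ₜ[K] (op (1 : A)) : A ⊗[K] Aᵐᵒᵖ) • one' := by
      rw [TensorProduct.Algebra.smul_def, op_one, one_smul]
    rw [this, map_smul, TensorProduct.Algebra.smul_def, op_one, one_smul]
    rfl
  have h2 : r (op a • one') = r one' * a := by
    have : op a • one' = ((1 : A) ⊗ₜ[K] (op a) : A ⊗[K] Aᵐᵒᵖ) • one' := by
      rw [TensorProduct.Algebra.smul_def, one_smul]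
    rw [this, map_smul, TensorProduct.Algebra.smul_def, one_smul]
    rfl
  have h3 : a • one' = op a • one' + f (d.D a) := by
    rw [smul_E, op_smul_E]
    refine Prod.ext ?_ ?_
    · show a * 1 = 1 * a + 0
      simp
    · show a * 0 + d.D a * 1 = 0 * a + d.D a
      simp
  have h4 := congrArg r h3
  rw [map_add, h1, h2, hr] at h4
  have h5 : a * r one' = r one' * a + d.D a := h4
  rw [h5]
  abel

end ext

/-- a field extension with a nonzero derivation is not injective as a bimodule -/
theorem not_injective (K L : Type) [Field K] [Field L] [Algebra K L] [FiniteDimensional K L]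
    (hL : ¬ Algebra.IsSeparable K L) : ¬ Injective (regular K L) := by
  intro h
  apply hL
  rw [← Algebra.FormallyUnramified.iff_isSeparable]
  by_contra hu
  have hns : ¬ Subsingleton (Ω[L⁄K]) := fun hs => hu ⟨hs⟩
  rw [not_subsingleton_iff_nontrivial] at hns
  obtain ⟨x, hx⟩ := exists_ne (0 : Ω[L⁄K])
  obtain ⟨φ, hφ⟩ : ∃ φ : Module.Dual L (Ω[L⁄K]), φ x ≠ 0 := by
    by_contra hcon
    push Not at hcon
    exact hx ((Module.forall_dual_apply_eq_zero_iff L x).1 hcon)
  let δ : Derivation K L L := KaehlerDifferential.linearMapEquivDerivation K L φ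
  let d : Der K L := ⟨δ.toLinearMap, fun a b => by
    show δ (a * b) = a * δ b + δ a * b
    rw [δ.leibniz, smul_eq_mul, smul_eq_mul, mul_comm b]⟩
  obtain ⟨c, hc⟩ := inner_of_injective d h
  have hδ : δ = 0 := by
    ext a
    have : δ a = a * c - c * a := hc a
    rw [this, mul_comm, sub_self]
    rfl
  have : φ = 0 := (KaehlerDifferential.linearMapEquivDerivation K L).map_eq_zero_iff.1 hδ
  exact hφ (by rw [this]; rfl)

theorem symm_field (K L : Type) [Field K] [Field L] [Algebra K L] [FiniteDimensional K L] :
    Symm K L := by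
  obtain ⟨lam, hlam⟩ : ∃ lam : Module.Dual K L, lam 1 ≠ 0 := by
    by_contra hcon
    push Not at hcon
    exact one_ne_zero ((Module.forall_dual_apply_eq_zero_iff K (1 : L)).1 hcon)
  let ψ : L →ₗ[K] Module.Dual K L := LinearMap.mk₂ K (fun b x => lam (b * x))
    (by intro a b c; rw [add_mul, map_add]) (by intro c a b; rw [smul_mul_assoc, map_smul])
    (by intro a b c; rw [mul_add, map_add]) (by intro c a b; rw [mul_smul_comm, map_smul])
  have hψ : Function.Injective ψ := by
    rw [injective_iff_map_eq_zero]
    intro b hb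
    by_contra hb0
    apply hlam
    have : ψ b b⁻¹ = 0 := by rw [hb]; rfl
    have h2 : lam (b * b⁻¹) = 0 := this
    rwa [mul_inv_cancel₀ hb0] at h2
  refine ⟨LinearEquiv.ofBijective ψ ⟨hψ, ?_⟩, ?_⟩
  · refine (LinearMap.injective_iff_surjective_of_finrank_eq_finrank ?_).1 hψ
    exact (Subspace.dual_finrank_eq).symm
  · intro a b c x
    show lam (a * b * c * x) = lam (b * (c * x * a))
    congr 1
    ring

theorem gendo_field (K L : Type) [Field K] [Field L] [Algebra K L] [FiniteDimensional K L] :
    GendoSymmetric K L := by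
  refine ⟨L, inferInstance, inferInstance, L, inferInstance, inferInstance, inferInstance,
    inferInstance, inferInstance, inferInstance, symm_field K L, inferInstance,
    ⟨LinearMap.id, LinearMap.id, rfl⟩, ?_⟩
  let g : L →ₐ[K] Module.End L L :=
    { toFun := fun a => a • (1 : Module.End L L)
      map_one' := one_smul _ _
      map_mul' := fun a b => by
        refine LinearMap.ext fun x => ?_
        show a * b * x = a * (b * x)
        ring
      map_zero' := zero_smul _ _
      map_add' := fun a b => add_smul _ _ _
      commutes' := fun r => by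
        refine LinearMap.ext fun x => ?_
        show algebraMap K L r * x = r • x
        rw [Algebra.smul_def] }
  refine ⟨AlgEquiv.ofBijective g ⟨?_, ?_⟩⟩
  · intro a b hab
    have : (g a) 1 = (g b) 1 := by rw [hab]
    have h2 : a * 1 = b * 1 := this
    simpa using h2
  · intro f
    refine ⟨f 1, LinearMap.ext fun x => ?_⟩
    show f 1 * x = f x
    rw [mul_comm, ← smul_eq_mul, ← map_smul, smul_eq_mul, mul_one]

theorem gldim_field (L : Type) [Field L] : gldim L = 0 := by
  refine le_antisymm ?_ ?_
  · refine iSup_le fun M => ?_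
    have hp : Projective M := by
      have : Projective (ModuleCat.of L M) :=
        (IsProjective.iff_projective (R := L) M).1 Module.Projective.of_free
      exact this
    have := (projectiveDimension_le_iff M 0).2 inferInstance
    simpa using this
  · refine le_trans ?_ (le_iSup _ (ModuleCat.of L L))
    have h0 : ¬ Limits.IsZero (ModuleCat.of L L) := by
      rw [ModuleCat.isZero_iff_subsingleton]
      intro hs
      exact one_ne_zero (α := L) (hs.elim _ _)
    have hp : Projective (ModuleCat.of L L) :=
      (IsProjective.iff_projective (R := L) L).1 inferInstance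
    rw [(projectiveDimension_eq_zero_iff _).2 ⟨hp, h0⟩]

/-- Q1 over the field `K` -/
def Question (K : Type) [Field K] : Prop :=
  ∀ (A : Type) [Ring A] [Algebra K A] [FiniteDimensional K A] (g : ℕ),
    GendoSymmetric K A → gldim A = g → injectiveDimension (regular K A) = ((2 * g : ℕ) : WithBot ℕ∞)

theorem perfect_of_question (K : Type) [Field K] (hQ : Question K) : PerfectField K := by
  refine ⟨fun {f} hf => ?_⟩
  by_contra hsep
  have _ : Fact (Irreducible f) := ⟨hf⟩
  have : FiniteDimensional K (AdjoinRoot f) := (AdjoinRoot.powerBasis hf.ne_zero).finite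
  have h1 : ¬ Algebra.IsSeparable K (AdjoinRoot f) := by
    intro hs
    have h2 := Algebra.IsSeparable.isSeparable K (AdjoinRoot.root f)
    unfold IsSeparable at h2
    rw [AdjoinRoot.minpoly_root hf.ne_zero] at h2
    exact hsep (h2.of_mul_left)
  have h3 := hQ (AdjoinRoot f) 0 (gendo_field K _) (by rw [gldim_field]; rfl)
  have h4 : HasInjectiveDimensionLE (regular K (AdjoinRoot f)) 0 := by
    rw [← injectiveDimension_le_iff, h3]
  exact not_injective K (AdjoinRoot f) h1 (injective_iff_hasInjectiveDimensionLT_one.2 h4)

theorem imperfect : ¬ PerfectField (RatFunc (ZMod 2)) := by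
  intro h
  have : CharP (RatFunc (ZMod 2)) 2 := charP_of_injective_algebraMap
    (algebraMap (ZMod 2) (RatFunc (ZMod 2))).injective 2
  have : ExpChar (RatFunc (ZMod 2)) 2 := ExpChar.prime Nat.prime_two
  have := PerfectField.toPerfectRing (K := RatFunc (ZMod 2)) 2
  obtain ⟨y, hy⟩ := surjective_frobenius (RatFunc (ZMod 2)) 2 (RatFunc.X)
  rw [frobenius_def] at hy
  have hy0 : y ≠ 0 := by
    rintro rfl
    rw [zero_pow two_ne_zero] at hy
    exact RatFunc.X_ne_zero hy.symm
  have := congrArg RatFunc.intDegree hy
  rw [pow_two, RatFunc.intDegree_mul hy0 hy0, RatFunc.intDegree_X] at this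
  omega

/-- **Main theorem.** If `idim_{A^e}(A) = 2 gldim A` holds for all gendo-symmetric algebras of
finite global dimension over `K`, then `K` is perfect; so Q1, asked over all fields, has a negative
answer. -/
theorem result : (∀ (K : Type) [Field K], Question K → PerfectField K) ∧
    ∃ (K : Type) (_ : Field K), ¬ Question K :=
  ⟨fun K _ => perfect_of_question K, RatFunc (ZMod 2), inferInstance,
    fun h => imperfect (perfect_of_question _ h)⟩

end Pool.Agent.Results.MP_38adfa_al.ImperfectFields
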